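import Pool.Agent.R294.CSub4

/-!
# Functions on `X` below positive elements in crossed products of `C(X, D)`

`D` is a simple unital C*-algebra, the discrete group `G` acts minimally on the infinite compact
space `X`, and the action `α` of `G` on `C(X, D)` lies over the action on `X` and is pseudoperiodically
generated. Then below every nonzero positive element of `C(X, D)` there is, in the sense of Cuntz
comparison in the reduced crossed product (and in every C*-algebra generated by a covariant pair), a
nonzero positive function on `X`.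
-/

set_option autoImplicit false

open scoped CStarAlgebra ComplexOrder

namespace Pool.Agent.Results.MP_79262d_an.FunctionsBelow

open Pool.Agent.R294.CSub

universe u v w t

/-- The action `α` of `G` on `C(X, D)` lies over the action of `G` on `X`, with the automorphisms
`β g x` of `D`: `α g a x = β g x (a (g⁻¹ x))`. (As `α g` maps constant functions into `C(X, D)`, the
map `x ↦ β g x d` is then continuous for every `d`.) -/
def LiesOver {X : Type u} {D : Type v} {G : Type w} [TopologicalSpace X] [CompactSpace X]
    [CStarAlgebra D] [Group G] [MulAction G X] (α : G →* (C(X, D) ≃⋆ₐ[ℂ] C(X, D)))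
    (β : G → X → (D ≃⋆ₐ[ℂ] D)) : Prop :=
  ∀ (g : G) (a : C(X, D)) (x : X), α g a x = β g x (a (g⁻¹ • x))

/-- The set `S` of automorphisms of `D` is pseudoperiodic: for every nonzero positive `a` there is a
nonzero positive `b` with `b ≾ β a` for all `β` in `S` and for the identity. -/
def Pseudoperiodic {D : Type v} [CStarAlgebra D] [PartialOrder D] (S : Set (D ≃⋆ₐ[ℂ] D)) : Prop :=
  ∀ a : D, 0 ≤ a → a ≠ 0 → ∃ b : D, 0 ≤ b ∧ b ≠ 0 ∧ CuntzLE b a ∧ ∀ β ∈ S, CuntzLE b (β a)

/-- `D` has no closed two-sided ideals other than `0` and `D`. -/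
def TopSimple (D : Type v) [CStarAlgebra D] : Prop :=
  ∀ I : TwoSidedIdeal D, IsClosed (I : Set D) → I = ⊥ ∨ I = ⊤

/-- **Nonzero positive elements of `C(X, D)` dominate nonzero functions in the crossed product.**
Here `(ι, u)` is any covariant pair in a unital C*-algebra `B`; the reduced crossed product, with the
canonical embedding of `C(X, D)` and the canonical unitaries, is such a pair. -/
theorem result {X : Type u} {D : Type v} {G : Type w} {B : Type t} [TopologicalSpace X]
    [CompactSpace X] [T2Space X] [Infinite X] [CStarAlgebra D] [PartialOrder D] [StarOrderedRing D]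
    [Group G] [MulAction G X] [ContinuousConstSMul G X] [MulAction.IsMinimal G X] [CStarAlgebra B]
    (hD : TopSimple D) (α : G →* (C(X, D) ≃⋆ₐ[ℂ] C(X, D))) (β : G → X → (D ≃⋆ₐ[ℂ] D))
    (hα : LiesOver α β) (hβ : Pseudoperiodic (Set.range fun p : G × X => β p.1 p.2))
    (ι : C(X, D) →⋆ₐ[ℂ] B) (u : G →* unitary B)
    (hcov : ∀ (g : G) (a : C(X, D)), (u g : B) * ι a * star (u g : B) = ι (α g a))
    (a : C(X, D)) (ha : ∀ x, 0 ≤ a x) (ha0 : a ≠ 0) :
    ∃ f : C(X, ℝ), (∀ x, 0 ≤ f x) ∧ f ≠ 0 ∧ CuntzLE (ι (scal f)) (ι a) := by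
  refine main hD α β hα ?_ ι u hcov a ha ha0
  intro d hd hd0
  obtain ⟨b, hb, hb0, -, h⟩ := hβ d hd hd0
  exact ⟨b, hb, hb0, fun g x => h _ ⟨(g, x), rfl⟩⟩

end Pool.Agent.Results.MP_79262d_an.FunctionsBelow
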